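import Pool.Agent.W438.RA.All

/-!
# The 27-sided right-angled polytope `P⁶` has minimal volume

`H6` is the hyperboloid `B x x = -1`, `0 < x 0` for `B x y = -x₀y₀ + x₁y₁ + ... + x₆y₆` on `ℝ⁷`, `hypVol` is
hyperbolic volume, `poly e` is the intersection of the half-spaces `B x (e i) ≤ 0`, `RightAngled e` says that
`e` is the family of outer unit normals of the sides of a right-angled polytope.
-/

namespace Pool.Agent.Results.MP_20f8ce_gt.MinimalVolume

open Pool.Agent.W575.Hyp6 Pool.Agent.W438.RA MeasureTheory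

/-- The polytope `P⁶`: its outer unit normals are the 27 integral vectors `N f`. -/
def P6 : Set H6 := {x | ∀ f : Fin 27, B x.1 (fun i => (N f i : ℝ)) ≤ 0}

/-- `P⁶` is the right-angled Coxeter polytope of the congruence two subgroup `Γ⁶₂` of the group of
positive Lorentzian matrices, its volume is `π³/15`, and every right-angled polytope in `H⁶` has
volume at least `vol(P⁶)`. -/
theorem result :
    (RightAngled (fun (f : Fin 27) (i : Fin 7) => (N f i : ℝ)) ∧
      (∀ (f : Fin 27) (x : H6), (s f • x).1 =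
        x.1 - (2 * B x.1 (fun i => (N f i : ℝ))) • (fun i => (N f i : ℝ))) ∧
      Subgroup.closure (Set.range s) = Gam2 ∧
      IsFundamentalDomain Gam2 P6 hypVol ∧
      hypVol P6 = ENNReal.ofReal (Real.pi ^ 3 / 15)) ∧
    ∀ (ι : Type) [Finite ι] (e : ι → Fin 7 → ℝ), RightAngled e → hypVol P6 ≤ hypVol (poly e) := by
  refine ⟨⟨rightAngled_NR, smul_s, closure_s, fd_P6, vol_poly_NR⟩, fun ι _ e he => ?_⟩
  have : Fintype ι := Fintype.ofFinite ι
  have h : hypVol P6 = ENNReal.ofReal (Real.pi ^ 3 / 15) := vol_poly_NR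
  rw [h]
  exact lower e he

end Pool.Agent.Results.MP_20f8ce_gt.MinimalVolume
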